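import Mathlib
import Pool.Agent.H672R2.LookaheadDefs
import Pool.Agent.H672R2.LookaheadOpt
import Pool.Agent.H672R2.LookaheadCore
import Pool.Agent.H672R2.LookaheadEx

set_option autoImplicit false

namespace Pool.Agent.Results.MP_0f9109_lc.SevenEighths

open Pool.Agent.H672R2.Lookahead

/-- The approximation ratio `ρ_k` of the `k`-lookahead mechanism is at most `7 / 8` for every `k ≥ 2`;
in particular it does not tend to `1`. This holds in both readings of truthfulness: bids and values
range over all positive reals (`full = true`), or only over the support (`full = false`). -/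
theorem result (full : Bool) :
    (∀ k : ℕ, 2 ≤ k → IsGLB (ratios full k) (rho full k) ∧ rho full k ≤ 7 / 8) ∧
      ¬ Filter.Tendsto (rho full) Filter.atTop (nhds 1) := by
  refine ⟨fun k hk => ⟨isGLB_rho full hk, rho_le full hk⟩, fun h => ?_⟩
  have h1 : (1 : ℝ) ≤ 7 / 8 :=
    le_of_tendsto h (Filter.eventually_atTop.mpr ⟨2, fun k hk => rho_le full hk⟩)
  norm_num at h1

end Pool.Agent.Results.MP_0f9109_lc.SevenEighths
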